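import Pool.Agent.Helper94.PQ.Stmts

set_option autoImplicit false

open NumberField
open scoped Classical

namespace PQ55

open BKA PQ Pool.Agent.Helper13.Swan IsDedekindDomain

/-! ### Residues of fixed elements -/

theorem pow_surj {k : Type*} [Field k] [Finite k] (p : ℕ) [Fact p.Prime] [CharP k p] (a : ℕ)
    (y : k) : ∃ x : k, x ^ p ^ a = y := by
  have h1 : Function.Injective (iterateFrobenius k p a) := iterateFrobenius_inj k p a
  obtain ⟨x, hx⟩ := (Finite.injective_iff_surjective.1 h1) y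
  exact ⟨x, by rw [← hx, iterateFrobenius_def]⟩

theorem coeff_pow {k : Type*} [Field k] (p : ℕ) [Fact p.Prime] [CharP k p] (a m : ℕ) (hm : 0 < m)
    (x : k) :
    ((Polynomial.X - Polynomial.C x) ^ (p ^ a * m)).coeff (p ^ a * (m - 1)) =
      -(m : k) * x ^ p ^ a := by
  have h0 : 0 < p ^ a := pow_pos (Fact.out : p.Prime).pos a
  have h1 : (Polynomial.X - Polynomial.C x) ^ (p ^ a * m) =
      Polynomial.expand k (p ^ a) ((Polynomial.X - Polynomial.C (x ^ p ^ a)) ^ m) := by
    rw [pow_mul, sub_pow_char_pow, map_pow, map_sub, Polynomial.expand_X, Polynomial.expand_C,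
      Polynomial.C_pow]
  rw [h1, Polynomial.coeff_expand_mul' h0, sub_eq_add_neg, ← Polynomial.C_neg,
    Polynomial.coeff_X_add_C_pow]
  have h2 : m - (m - 1) = 1 := by omega
  have h3 : m.choose (m - 1) = m := by
    obtain ⟨m, rfl⟩ : ∃ j, m = j + 1 := ⟨m - 1, by omega⟩
    rw [Nat.add_sub_cancel, Nat.choose_succ_self_right]
  rw [h2, h3, pow_one]
  ring

/-- A group of automorphisms that acts trivially modulo `P`: every residue class contains a fixed
element. -/
theorem fixed_rep {B : Type*} [CommRing B] {H : Type*} [Group H] [Finite H]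
    [MulSemiringAction H B] (P : Ideal B) [P.IsMaximal] [Finite (B ⧸ P)]
    (hH : ∀ (h : H) (x : B), h • x - x ∈ P) (y : B) :
    ∃ z : B, (∀ h : H, h • z = z) ∧ y - z ∈ P := by
  let _ : Field (B ⧸ P) := Ideal.Quotient.field P
  obtain ⟨p, hp⟩ := CharP.exists (B ⧸ P)
  have hpp : Fact p.Prime := ⟨(CharP.char_is_prime_or_zero (B ⧸ P) p).resolve_right
    (CharP.char_ne_zero_of_finite (B ⧸ P) p)⟩
  have := Fintype.ofFinite H
  obtain ⟨a, m, hm, hcard⟩ := Nat.exists_eq_pow_mul_and_not_dvd (Nat.card_pos (α := H)).ne' p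
    hpp.out.ne_one
  have hm0 : (m : B ⧸ P) ≠ 0 := by
    rw [Ne, CharP.cast_eq_zero_iff (B ⧸ P) p]
    exact hm
  have hmpos : 0 < m := by
    rcases Nat.eq_zero_or_pos m with h | h
    · exact absurd (h ▸ dvd_zero p) hm
    · exact h
  obtain ⟨x', hx'⟩ := pow_surj p a (-(Ideal.Quotient.mk P y) / (m : B ⧸ P))
  obtain ⟨x, rfl⟩ := Ideal.Quotient.mk_surjective x'
  refine ⟨(MulSemiringAction.charpoly H x).coeff (p ^ a * (m - 1)),
    fun h => MulSemiringAction.smul_coeff_charpoly _ _ _, ?_⟩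
  rw [← Ideal.Quotient.eq, ← Polynomial.coeff_map, MulSemiringAction.charpoly_eq,
    Polynomial.map_prod]
  have h1 : ∀ g : H, (Polynomial.X - Polynomial.C (g • x)).map (Ideal.Quotient.mk P) =
      Polynomial.X - Polynomial.C (Ideal.Quotient.mk P x) := by
    intro g
    rw [Polynomial.map_sub, Polynomial.map_X, Polynomial.map_C]
    congr 2
    exact Ideal.Quotient.eq.2 (hH g x)
  rw [Finset.prod_congr rfl (fun g _ => h1 g), Finset.prod_const, Finset.card_univ,
    ← Nat.card_eq_fintype_card, hcard, coeff_pow p a m hmpos, hx']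
  field_simp

section

variable {F : Type} [Field F] [NumberField F] {v : Pl F} {𝔓 : Ideal (Zb F)}

theorem under_prime (hO : Over v 𝔓) (L : IntermediateField F (AlgebraicClosure F)) :
    (under L 𝔓).IsPrime := by
  have := hO.1
  exact Ideal.comap_isPrime _ _

omit [NumberField F] in
theorem mem_under (L : IntermediateField F (AlgebraicClosure F)) (x : 𝓞 L) :
    x ∈ under L 𝔓 ↔ inc L x ∈ 𝔓 := Iff.rfl

theorem alg_mem (hO : Over v 𝔓) (L : IntermediateField F (AlgebraicClosure F)) (x : 𝓞 F) :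
    algebraMap (𝓞 F) (𝓞 L) x ∈ under L 𝔓 ↔ x ∈ v.asIdeal := by
  rw [mem_under]
  exact (hO.2 x (inc L (algebraMap (𝓞 F) (𝓞 L) x)) rfl).symm

theorem under_ne_bot (hO : Over v 𝔓) (L : IntermediateField F (AlgebraicClosure F)) :
    under L 𝔓 ≠ ⊥ := by
  intro h
  obtain ⟨x, hx, hx0⟩ := Submodule.exists_mem_ne_zero_of_ne_bot v.ne_bot
  have h1 := (alg_mem hO L x).2 hx
  rw [h, Ideal.mem_bot] at h1
  apply hx0
  have h2 : algebraMap F L (x : F) = 0 := by
    have := congrArg (fun z : 𝓞 L => (z : L)) h1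
    exact this
  have h3 : (x : F) = 0 := (algebraMap F L).injective (by rw [h2, map_zero])
  exact RingOfIntegers.ext h3

/-- the place of `L` under `𝔓` -/
noncomputable def plc (hO : Over v 𝔓) (L : IntermediateField F (AlgebraicClosure F)) :
    HeightOneSpectrum (𝓞 L) :=
  ⟨under L 𝔓, under_prime hO L, under_ne_bot hO L⟩

theorem plc_as (hO : Over v 𝔓) (L : IntermediateField F (AlgebraicClosure F)) :
    (plc hO L).asIdeal = under L 𝔓 := rfl

omit [NumberField F] in
theorem coe_smul' (L : IntermediateField F (AlgebraicClosure F)) (g : L ≃ₐ[F] L) (x : 𝓞 L) :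
    ((g • x : 𝓞 L) : L) = g (x : L) := rfl

theorem smul_pow_mem (L : IntermediateField F (AlgebraicClosure F)) (g : L ≃ₐ[F] L)
    (hg : g ∈ Inr L 𝔓) (n : ℕ) (x : 𝓞 L) (hx : x ∈ under L 𝔓 ^ n) :
    g • x ∈ under L 𝔓 ^ n := by
  have h1 : (under L 𝔓).map (MulSemiringAction.toRingHom (L ≃ₐ[F] L) (𝓞 L) g) ≤ under L 𝔓 := by
    rw [Ideal.map_le_iff_le_comap]
    intro y hy
    rw [Ideal.mem_comap, MulSemiringAction.toRingHom_apply]
    have h2 := hg y (g • y) (coe_smul' L g y)
    have h3 : g • y = (g • y - y) + y := by ring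
    rw [h3]
    exact Ideal.add_mem _ h2 hy
  have h2 := Ideal.mem_map_of_mem (MulSemiringAction.toRingHom (L ≃ₐ[F] L) (𝓞 L) g) hx
  rw [Ideal.map_pow] at h2
  exact Ideal.pow_right_mono h1 n h2

theorem int_smul_le (hO : Over v 𝔓) (L : IntermediateField F (AlgebraicClosure F))
    [NumberField L] (g : L ≃ₐ[F] L) (hg : g ∈ Inr L 𝔓) (x : 𝓞 L) :
    (plc hO L).intValuation (g • x) ≤ (plc hO L).intValuation x := by
  by_cases hx : x = 0
  · rw [hx, smul_zero]
  · rw [(plc hO L).intValuation_eq_exp_neg_multiplicity hx,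
      (plc hO L).intValuation_le_pow_iff_mem, plc_as]
    apply smul_pow_mem L g hg
    rw [← plc_as hO L, ← (plc hO L).intValuation_le_pow_iff_mem,
      ← (plc hO L).intValuation_eq_exp_neg_multiplicity hx]

theorem val_smul_le (hO : Over v 𝔓) (L : IntermediateField F (AlgebraicClosure F))
    [NumberField L] (g : L ≃ₐ[F] L) (hg : g ∈ Inr L 𝔓) (x : L) :
    (plc hO L).valuation L (g x) = (plc hO L).valuation L x := by
  have h0 : ∀ (g : L ≃ₐ[F] L), g ∈ Inr L 𝔓 → ∀ x : 𝓞 L,
      (plc hO L).valuation L (g (x : L)) = (plc hO L).valuation L (x : L) := by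
    intro g hg x
    have h1 := int_smul_le hO L g hg x
    have h2 := int_smul_le hO L g⁻¹ ((Inr L 𝔓).inv_mem hg) (g • x)
    rw [inv_smul_smul] at h2
    have h3 := le_antisymm h1 h2
    rw [← (plc hO L).valuation_of_algebraMap (K := L),
      ← (plc hO L).valuation_of_algebraMap (K := L)] at h3
    exact h3
  obtain ⟨a, b, hb, rfl⟩ := IsFractionRing.div_surjective (A := 𝓞 L) x
  rw [map_div₀, map_div₀, map_div₀]
  exact congrArg₂ (· / ·) (h0 g hg a) (h0 g hg b)

theorem sub_mem_iff (hO : Over v 𝔓) (L : IntermediateField F (AlgebraicClosure F))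
    [NumberField L] (x : 𝓞 L) (n : ℕ) :
    (plc hO L).valuation L (x : L) ≤ ex n ↔ x ∈ under L 𝔓 ^ n := by
  have h1 := (plc hO L).intValuation_le_pow_iff_mem x n
  rw [plc_as, ← (plc hO L).valuation_of_algebraMap (K := L)] at h1
  exact h1

theorem base (hO : Over v 𝔓) (L : IntermediateField F (AlgebraicClosure F))
    [NumberField L] [FiniteDimensional F L] (π : L)
    (hπ : (plc hO L).valuation L π = ex 1) :
    Base (Inr L 𝔓) ((plc hO L).valuation L) π := by
  refine ⟨fun τ x => val_smul_le hO L τ τ.2 x, hπ, ?_⟩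
  intro x hx
  obtain ⟨a, ha⟩ := (plc hO L).exists_valuation_sub_lt_of_integer (K := L) hx 1
  have : (under L 𝔓).IsMaximal := (plc hO L).isMaximal
  have : Finite (𝓞 L ⧸ under L 𝔓) := Ideal.finiteQuotientOfFreeOfNeBot _ (under_ne_bot hO L)
  obtain ⟨z, hz, hz'⟩ := fixed_rep (H := Inr L 𝔓) (under L 𝔓) (fun h y => h.2 y _ rfl) a
  refine ⟨(z : L), fun τ => ?_, ?_⟩
  · exact congrArg (fun t : 𝓞 L => (t : L)) (hz τ)
  · have e1 : x - (z : L) = ((a - z : 𝓞 L) : L) - ((a : L) - x) := by
      push_cast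
      ring
    rw [e1]
    apply ((plc hO L).valuation L).map_sub_lt
    · exact ((plc hO L).valuation_lt_one_iff_mem (K := L) (a - z)).2 hz'
    · exact ha

theorem nm_bot {Ω P : Type*} [Field Ω] [Group P] [MulSemiringAction P Ω] [Fintype P] (x : Ω) :
    nm (⊥ : Subgroup P) x = x := by
  rw [nm_def, Fintype.prod_unique]
  have h3 : ((default : (⊥ : Subgroup P)) : P) = 1 := (Subgroup.mem_bot).1 (Subtype.prop _)
  rw [h3, one_smul]

theorem ram (hO : Over v 𝔓) (L : IntermediateField F (AlgebraicClosure F))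
    [NumberField L] [FiniteDimensional F L] (π : 𝓞 L)
    (hπ : (plc hO L).valuation L (π : L) = ex 1) (i : ℕ) (g : Inr L 𝔓) :
    (∀ x y : 𝓞 L, (y : L) = (g : L ≃ₐ[F] L) (x : L) → y - x ∈ under L 𝔓 ^ (i + 1)) ↔
      g ∈ Rk (base hO L (π : L) hπ) i := by
  rw [mem_Rk]
  constructor
  · intro h
    have h1 := h π ((g : L ≃ₐ[F] L) • π) rfl
    rw [← sub_mem_iff hO L] at h1
    exact_mod_cast h1
  · intro h x y hy
    rw [← sub_mem_iff hO L]
    have := Fintype.ofFinite (Inr L 𝔓)
    have h1 := (base hO L (π : L) hπ).val_smul_sub_le (⊥ : Subgroup (Inr L 𝔓)) g (c := (x : L))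
      (by
        intro σ hσ
        rw [Subgroup.mem_bot] at hσ
        rw [hσ, one_smul]) ((plc hO L).valuation_le_one (K := L) x)
    rw [nm_bot] at h1
    have h2 : ((y - x : 𝓞 L) : L) = g • (x : L) - (x : L) :=
      (map_sub (algebraMap (𝓞 L) L) y x).trans (congrArg (fun t : L => t - (x : L)) hy)
    rw [h2]
    push_cast
    exact h1.trans h

theorem val (hO : Over v 𝔓) (L : IntermediateField F (AlgebraicClosure F))
    [NumberField L] [FiniteDimensional F L] [Normal F L] (x : F) :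
    (plc hO L).valuation L (algebraMap F L x) = (v.valuation F x) ^ (Nat.card (Inr L 𝔓)) := by
  have hl : (plc hO L).asIdeal.LiesOver v.asIdeal := by
    rw [Ideal.liesOver_iff, Ideal.under_def]
    ext a
    rw [Ideal.mem_comap, plc_as]
    exact (alg_mem hO L a).symm
  have : IsGalois F L := { }
  rw [← HeightOneSpectrum.valuation_liesOver L v (plc hO L) x,
    Ideal.ramificationIdx'_eq_ramificationIdx v.asIdeal (plc hO L).asIdeal v.ne_bot,
    ← Ideal.ramificationIdxIn_eq_ramificationIdx v.asIdeal (plc hO L).asIdeal (L ≃ₐ[F] L)]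
  have : Finite (𝓞 F ⧸ v.asIdeal) := Ideal.finiteQuotientOfFreeOfNeBot _ v.ne_bot
  have : Finite v.asIdeal.ResidueField :=
    Finite.of_surjective _ (Ideal.bijective_algebraMap_quotient_residueField v.asIdeal).2
  have : PerfectField v.asIdeal.ResidueField := inferInstance
  have hI : Ideal.inertia (L ≃ₐ[F] L) (plc hO L).asIdeal = Inr L 𝔓 := by
    ext g
    constructor
    · intro hg x y hxy
      have h1 : y = g • x := RingOfIntegers.ext hxy
      rw [h1]
      exact hg x
    · intro hg x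
      exact hg x (g • x) rfl
  rw [← Ideal.card_inertia_eq_ramificationIdxIn (G := L ≃ₐ[F] L) v.asIdeal (plc hO L).asIdeal]
  rw [hI]

/-- FIN: existence of the local model. -/
theorem st_FIN : PQ.ST_FIN := by
  intro F _ _ v 𝔓 hO L hfd hno
  have : NumberField L := NumberField.of_module_finite F L
  obtain ⟨π, hπ⟩ := (plc hO L).intValuation_exists_uniformizer
  have hπ' : (plc hO L).valuation L (π : L) = ex 1 := by
    rw [← (plc hO L).valuation_of_algebraMap (K := L)] at hπ
    exact hπ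
  exact ⟨{
    w := (plc hO L).valuation L
    π := (π : L)
    base := base hO L (π : L) hπ'
    ram := fun i g => ram hO L π hπ' i g
    val := fun x => val hO L x
    int := fun x => ⟨(plc hO L).valuation_le_one (K := L) x,
      (plc hO L).valuation_lt_one_iff_mem (K := L) x⟩ }⟩

end

end PQ55

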