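import Pool.Agent.Helper94.PQ.Stmts

set_option autoImplicit false

open scoped Classical

namespace PQ55

open PQ

/-! ### Counting fixed points on cosets -/

section count

variable {S : Type} [Group S] [Finite S]

omit [Finite S] in
theorem smul_eq_iff (H : Subgroup S) (g x : S) :
    g • (x : S ⧸ H) = (x : S ⧸ H) ↔ x⁻¹ * g * x ∈ H := by
  have h1 : g • (x : S ⧸ H) = ((g * x : S) : S ⧸ H) := rfl
  rw [h1, QuotientGroup.eq, ← H.inv_mem_iff]
  have h2 : ((g * x)⁻¹ * x)⁻¹ = x⁻¹ * g * x := by group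
  rw [h2]

omit [Finite S] in
theorem card_fxn (H : Subgroup S) (g : S) :
    Nat.card {x : S // x⁻¹ * g * x ∈ H} = Nat.card H * fxn H g := by
  have h1 := Nat.card_congr (QuotientGroup.preimageMkEquivSubgroupProdSet H
    {y : S ⧸ H | g • y = y})
  rw [Nat.card_prod] at h1
  have h2 : Nat.card {x : S // x⁻¹ * g * x ∈ H} =
      Nat.card ((QuotientGroup.mk : S → S ⧸ H) ⁻¹' {y : S ⧸ H | g • y = y}) :=
    Nat.card_congr (Equiv.subtypeEquivRight fun x => (smul_eq_iff H g x).symm)
  rw [h2, h1]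
  rfl

theorem fxn_of_card (H : Subgroup S) (g g' : S)
    (h : Nat.card {x : S // x⁻¹ * g * x ∈ H} = Nat.card {x : S // x⁻¹ * g' * x ∈ H}) :
    fxn H g = fxn H g' := by
  rw [card_fxn, card_fxn] at h
  exact Nat.eq_of_mul_eq_mul_left Nat.card_pos h

theorem fxn_conj (H : Subgroup S) (g b : S) : fxn H (b * g * b⁻¹) = fxn H g := by
  apply fxn_of_card
  refine Nat.card_congr (Equiv.subtypeEquiv (Equiv.mulLeft b⁻¹) fun x => ?_)
  have h2 : (b⁻¹ * x)⁻¹ * g * (b⁻¹ * x) = x⁻¹ * (b * g * b⁻¹) * x := by group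
  rw [Equiv.coe_mulLeft, h2]

theorem fxn_zero (H : Subgroup S) (g : S) (h : ∀ x, x⁻¹ * g * x ∉ H) : fxn H g = 0 := by
  have h1 := card_fxn H g
  have h2 : Nat.card {x : S // x⁻¹ * g * x ∈ H} = 0 := by
    rw [Nat.card_eq_zero]
    exact Or.inl ⟨fun x => h x.1 x.2⟩
  rw [h2] at h1
  rcases mul_eq_zero.1 h1.symm with h3 | h3
  · exact absurd h3 Nat.card_pos.ne'
  · exact h3

omit [Finite S] in
theorem fxn_one (H : Subgroup S) : Nat.card H * fxn H 1 = Nat.card S := by
  rw [← card_fxn]
  refine Nat.card_congr (Equiv.subtypeUnivEquiv fun x => ?_)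
  have : x⁻¹ * 1 * x = 1 := by group
  rw [this]
  exact H.one_mem

/-- the group generated by `H` and the central involution `z` -/
def ext2 (H : Subgroup S) (z : S) (hz : z * z = 1) (hc : ∀ g, g * z = z * g) : Subgroup S where
  carrier := {x | x ∈ H ∨ x * z ∈ H}
  one_mem' := Or.inl H.one_mem
  mul_mem' := by
    rintro x y (hx | hx) (hy | hy)
    · exact Or.inl (H.mul_mem hx hy)
    · right
      rw [mul_assoc]
      exact H.mul_mem hx hy
    · right
      have h1 : x * y * z = x * z * y := by rw [mul_assoc, hc y, ← mul_assoc]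
      rw [h1]
      exact H.mul_mem hx hy
    · left
      have h1 : x * y = (x * z) * (y * z) := by
        rw [mul_assoc x z, ← mul_assoc z y z, ← hc y, mul_assoc y z z, hz, mul_one]
      rw [h1]
      exact H.mul_mem hx hy
  inv_mem' := by
    rintro x (hx | hx)
    · exact Or.inl (H.inv_mem hx)
    · right
      have h1 : x⁻¹ * z = (x * z)⁻¹ := by
        rw [mul_inv_rev, ← eq_inv_of_mul_eq_one_left hz, hc]
      rw [h1]
      exact H.inv_mem hx

omit [Finite S] in
theorem mem_ext2 (H : Subgroup S) (z : S) (hz : z * z = 1) (hc : ∀ g, g * z = z * g) (x : S) :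
    x ∈ ext2 H z hz hc ↔ x ∈ H ∨ x * z ∈ H := Iff.rfl

omit [Finite S] in
theorem not_both (H : Subgroup S) (z : S) (hzH : z ∉ H) (x : S) (h1 : x ∈ H) (h2 : x * z ∈ H) :
    False := by
  apply hzH
  have := H.mul_mem (H.inv_mem h1) h2
  rwa [inv_mul_cancel_left] at this

omit [Group S] in
theorem card_or (p q : S → Prop) (h : ∀ x, p x → q x → False) :
    Nat.card {x : S // p x ∨ q x} = Nat.card {x : S // p x} + Nat.card {x : S // q x} := by
  have := Fintype.ofFinite S
  rw [Nat.card_eq_fintype_card, Nat.card_eq_fintype_card, Nat.card_eq_fintype_card]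
  apply Fintype.card_subtype_or_disjoint
  intro r hp hq x hx
  exact h x (hp x hx) (hq x hx)

theorem card_ext2 (H : Subgroup S) (z : S) (hz : z * z = 1) (hc : ∀ g, g * z = z * g)
    (hzH : z ∉ H) : Nat.card (ext2 H z hz hc) = 2 * Nat.card H := by
  have h1 := card_or (fun x => x ∈ H) (fun x => x * z ∈ H) (not_both H z hzH)
  have h2 : Nat.card {x : S // x * z ∈ H} = Nat.card H :=
    Nat.card_congr (Equiv.subtypeEquiv (Equiv.mulRight z) fun x => Iff.rfl)
  rw [h2] at h1
  have h3 : Nat.card (ext2 H z hz hc) = Nat.card {x : S // x ∈ H ∨ x * z ∈ H} := rfl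
  rw [h3, h1, two_mul]

theorem two_fxn (H : Subgroup S) (z : S) (hz : z * z = 1) (hc : ∀ g, g * z = z * g)
    (hzH : z ∉ H) (g : S) : 2 * fxn (ext2 H z hz hc) g = fxn H g + fxn H (g * z) := by
  have h1 := card_fxn (ext2 H z hz hc) g
  rw [card_ext2 H z hz hc hzH] at h1
  have h2 := card_or (fun x => x⁻¹ * g * x ∈ H) (fun x => x⁻¹ * (g * z) * x ∈ H) (by
    intro x h h'
    apply not_both H z hzH _ h
    have h3 : x⁻¹ * (g * z) * x = x⁻¹ * g * x * z := by
      rw [mul_assoc _ x z, hc x, mul_assoc, mul_assoc, mul_assoc]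
    rwa [← h3])
  have h3 : Nat.card {x : S // x⁻¹ * g * x ∈ ext2 H z hz hc} =
      Nat.card {x : S // x⁻¹ * g * x ∈ H ∨ x⁻¹ * (g * z) * x ∈ H} := by
    refine Nat.card_congr (Equiv.subtypeEquivRight fun x => ?_)
    rw [mem_ext2]
    have h3 : x⁻¹ * (g * z) * x = x⁻¹ * g * x * z := by
      rw [mul_assoc _ x z, hc x, mul_assoc, mul_assoc, mul_assoc]
    rw [h3]
  rw [h3, h2, card_fxn, card_fxn, ← mul_add] at h1
  have h4 : Nat.card H * (2 * fxn (ext2 H z hz hc) g) =
      Nat.card H * (fxn H g + fxn H (g * z)) := by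
    rw [h1]
    ring
  exact Nat.eq_of_mul_eq_mul_left Nat.card_pos h4

end count

/-! ### The structure of thin groups -/

section thin

variable {S : Type} [Group S] [Finite S]

/-- what we use about thin groups -/
structure TD (S : Type) [Group S] (z a : S) (M : ℕ) : Prop where
  pos : 0 < M
  ord : orderOf a = 2 * M
  hz : z = a ^ M
  cen : ∀ g, g * z = z * g
  nrm : ∀ x : S, ∀ g ∈ Subgroup.zpowers a, x⁻¹ * g * x ∈ Subgroup.zpowers a
  con : ∀ g ∉ Subgroup.zpowers a, ∃ b, b * g * b⁻¹ = g * z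

namespace TD

variable {z a : S} {M : ℕ} (T : TD S z a M)

include T

omit [Finite S] in
theorem zz : z * z = 1 := by
  rw [T.hz, ← pow_add, ← two_mul, ← T.ord, pow_orderOf_eq_one]

omit [Finite S] in
theorem z_mem : z ∈ Subgroup.zpowers a := by
  rw [T.hz]
  exact Subgroup.pow_mem _ (Subgroup.mem_zpowers a) M

omit [Finite S] in
theorem z_ne : z ≠ 1 := by
  intro h
  rw [T.hz] at h
  have h1 := orderOf_dvd_of_pow_eq_one h
  rw [T.ord] at h1
  have h2 := Nat.le_of_dvd T.pos h1
  have := T.pos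
  omega

theorem inv_eq {g : S} (hg : g ∈ Subgroup.zpowers a) (h : g * g = 1) : g = 1 ∨ g = z := by
  obtain ⟨i, rfl⟩ := (mem_powers_iff_mem_zpowers).2 hg
  simp only at h ⊢
  rw [← pow_add, ← two_mul] at h
  have h1 := orderOf_dvd_of_pow_eq_one h
  rw [T.ord] at h1
  obtain ⟨c, rfl⟩ := (Nat.mul_dvd_mul_iff_left (by norm_num : 0 < 2)).1 h1
  rw [pow_mul, ← T.hz]
  rcases Nat.even_or_odd' c with ⟨j, rfl | rfl⟩
  · left
    rw [pow_mul, pow_two, T.zz, one_pow]
  · right
    rw [pow_succ, pow_mul, pow_two, T.zz, one_pow, one_mul]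

theorem odd_pow (hS : IsPGroup 2 S) {g : S} (hg : g ∈ Subgroup.zpowers a) (h1 : g ≠ 1)
    (hz : g ≠ z) : ∃ u : ℕ, Odd u ∧ g ^ u = g * z := by
  obtain ⟨t, ht⟩ := IsPGroup.iff_orderOf.1 hS g
  have ht0 : 2 ≤ t := by
    by_contra hlt
    push Not at hlt
    have h2 : g * g = 1 := by
      interval_cases t
      · rw [pow_zero, orderOf_eq_one_iff] at ht
        exact absurd ht h1
      · rw [pow_one] at ht
        rw [← pow_two, ← ht, pow_orderOf_eq_one]
    rcases T.inv_eq hg h2 with h3 | h3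
    · exact h1 h3
    · exact hz h3
  obtain ⟨t, rfl⟩ : ∃ j, t = j + 2 := ⟨t - 2, by omega⟩
  have h2 : g ^ 2 ^ (t + 1) = z := by
    have h3 : g ^ 2 ^ (t + 1) ∈ Subgroup.zpowers a := Subgroup.pow_mem _ hg _
    have h4 : g ^ 2 ^ (t + 1) * g ^ 2 ^ (t + 1) = 1 := by
      rw [← pow_add, ← two_mul, ← pow_succ', ← ht, pow_orderOf_eq_one]
    rcases T.inv_eq h3 h4 with h5 | h5
    · exfalso
      have h6 := orderOf_dvd_of_pow_eq_one h5
      rw [ht] at h6
      have h7 := (Nat.pow_dvd_pow_iff_le_right (by norm_num : 1 < 2)).1 h6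
      omega
    · exact h5
  refine ⟨2 ^ (t + 1) + 1, ?_, ?_⟩
  · rw [pow_succ]
    exact ⟨2 ^ t, by ring⟩
  · rw [pow_succ', h2]

/-- the difference of the permutation characters -/
theorem diff {k : Type} [Field k] [CharZero k] (H : Subgroup S)
    (hH : ∀ h ∈ H, h ∈ Subgroup.zpowers a → h = 1) (f : S → k) (n : k)
    (h1 : f 1 = n) (hz : f z = -n) (h0 : ∀ g, g ≠ 1 → g ≠ z → f g = 0) (d : ℤ)
    (hd : (d : k) * Nat.card S = 2 * n * Nat.card H) (g : S) :
    f g = (d : k) * ((fxn H g : k) - (fxn (ext2 H z T.zz T.cen) g : k)) := by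
  have hzH : z ∉ H := fun h => T.z_ne (hH z h T.z_mem)
  have hc0 : (Nat.card H : k) ≠ 0 := by
    rw [Nat.cast_ne_zero]
    exact Nat.card_pos.ne'
  have hS0 : (Nat.card S : k) ≠ 0 := by
    rw [Nat.cast_ne_zero]
    exact Nat.card_pos.ne'
  have e1 : (2 : k) * (fxn (ext2 H z T.zz T.cen) g : k) = fxn H g + fxn H (g * z) := by
    exact_mod_cast congrArg (Nat.cast : ℕ → k) (two_fxn H z T.zz T.cen hzH g)
  have e2 : (Nat.card H : k) * fxn H 1 = Nat.card S := by
    exact_mod_cast congrArg (Nat.cast : ℕ → k) (fxn_one H)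
  have e3 : fxn H z = 0 := by
    apply fxn_zero
    intro x hx
    rw [mul_assoc, ← T.cen, inv_mul_cancel_left] at hx
    exact hzH hx
  have key : (Nat.card S : k) * f g = n * Nat.card H * (fxn H g - fxn H (g * z)) := by
    by_cases hg1 : g = 1
    · rw [hg1, h1, one_mul, e3, Nat.cast_zero, sub_zero, ← e2]
      ring
    · by_cases hgz : g = z
      · rw [hgz, hz, T.zz, e3, Nat.cast_zero, zero_sub, ← e2]
        ring
      · rw [h0 g hg1 hgz, mul_zero]
        have e4 : fxn H g = fxn H (g * z) := by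
          by_cases hga : g ∈ Subgroup.zpowers a
          · have hga' : g * z ∈ Subgroup.zpowers a := Subgroup.mul_mem _ hga T.z_mem
            rw [fxn_zero H g, fxn_zero H (g * z)]
            · intro x hx
              have h2 := hH _ hx (T.nrm x _ hga')
              have h3 : g * z = 1 := by
                have h4 := congrArg (fun t => x * t * x⁻¹) h2
                simp only [mul_one, mul_inv_cancel] at h4
                rw [← h4]
                group
              apply hgz
              rw [eq_inv_of_mul_eq_one_left h3, ← eq_inv_of_mul_eq_one_left T.zz]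
            · intro x hx
              have h2 := hH _ hx (T.nrm x _ hga)
              apply hg1
              have h4 := congrArg (fun t => x * t * x⁻¹) h2
              simp only [mul_one, mul_inv_cancel] at h4
              rw [← h4]
              group
          · obtain ⟨b, hb⟩ := T.con g hga
            rw [← hb, fxn_conj]
        rw [e4, sub_self, mul_zero]
  apply mul_left_cancel₀ (mul_ne_zero hS0 (two_ne_zero : (2 : k) ≠ 0))
  calc (Nat.card S : k) * 2 * f g = 2 * ((Nat.card S : k) * f g) := by ring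
    _ = 2 * n * Nat.card H * (fxn H g - fxn H (g * z)) := by rw [key]; ring
    _ = (d : k) * Nat.card S * (2 * fxn H g - (fxn H g + fxn H (g * z))) := by
      rw [hd]; ring
    _ = Nat.card S * 2 * (d * (fxn H g - fxn (ext2 H z T.zz T.cen) g)) := by
      rw [← e1]; ring

end TD

omit [Finite S] in
theorem td_cyc {z a : S} {M : ℕ} (pos : 0 < M) (ord : orderOf a = 2 * M) (hz : z = a ^ M)
    (cen : ∀ g, g * z = z * g) (h : ∀ g, g ∈ Subgroup.zpowers a) : TD S z a M :=
  ⟨pos, ord, hz, cen, fun _ _ _ => h _, fun g hg => absurd (h g) hg⟩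

omit [Finite S] in
theorem card_cyc {a : S} {M : ℕ} (ord : orderOf a = 2 * M) (h : ∀ g, g ∈ Subgroup.zpowers a) :
    Nat.card S = 2 * M := by
  rw [← ord, ← Nat.card_zpowers]
  exact (Nat.card_congr (Equiv.subtypeUnivEquiv h)).symm

theorem card_two {a s : S} {M : ℕ} (ord : orderOf a = 2 * M) (hs : s ∉ Subgroup.zpowers a)
    (h : ∀ g, g ∈ Subgroup.zpowers a ∨ s⁻¹ * g ∈ Subgroup.zpowers a) :
    Nat.card S = 4 * M := by
  have h1 := card_or (fun g : S => g ∈ Subgroup.zpowers a) (fun g => s⁻¹ * g ∈ Subgroup.zpowers a)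
    (by
      intro x hx hx'
      apply hs
      have := Subgroup.mul_mem _ hx (Subgroup.inv_mem _ hx')
      rwa [mul_inv_rev, inv_inv, mul_inv_cancel_left] at this)
  have h2 : Nat.card {x : S // s⁻¹ * x ∈ Subgroup.zpowers a} = Nat.card (Subgroup.zpowers a) :=
    Nat.card_congr (Equiv.subtypeEquiv (Equiv.mulLeft s⁻¹) fun x => Iff.rfl)
  have h3 : Nat.card {x : S // x ∈ Subgroup.zpowers a} = Nat.card (Subgroup.zpowers a) := rfl
  rw [h2, h3, Nat.card_zpowers, ord, Nat.card_congr (Equiv.subtypeUnivEquiv h)] at h1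
  omega

omit [Finite S] in
theorem td_two {z a s : S} {M : ℕ} (pos : 0 < M) (ord : orderOf a = 2 * M) (hz : z = a ^ M)
    (cen : ∀ g, g * z = z * g) (hM : Even M)
    (h : ∀ g, g ∈ Subgroup.zpowers a ∨ s⁻¹ * g ∈ Subgroup.zpowers a)
    (hss : s * s = 1 ∨ s * s = z)
    (hc : s * a * s⁻¹ = a⁻¹ ∨ (Even (M / 2) ∧ s * a * s⁻¹ = a⁻¹ * z)) : TD S z a M := by
  have hzz : z * z = 1 := by
    rw [hz, ← pow_add, ← two_mul, ← ord, pow_orderOf_eq_one]
  have hzm : z ∈ Subgroup.zpowers a := by
    rw [hz]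
    exact Subgroup.pow_mem _ (Subgroup.mem_zpowers a) M
  have ham := Subgroup.mem_zpowers a
  have hconj : s * a * s⁻¹ ∈ Subgroup.zpowers a := by
    rcases hc with h1 | ⟨_, h1⟩
    · rw [h1]
      exact Subgroup.inv_mem _ ham
    · rw [h1]
      exact Subgroup.mul_mem _ (Subgroup.inv_mem _ ham) hzm
  have hconj2 : ∀ g ∈ Subgroup.zpowers a, s * g * s⁻¹ ∈ Subgroup.zpowers a := by
    intro g hg
    obtain ⟨i, rfl⟩ := Subgroup.mem_zpowers_iff.1 hg
    rw [← conj_zpow]
    exact Subgroup.zpow_mem _ hconj i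
  have hscen : ∀ g, g * (s * s) = (s * s) * g := by
    intro g
    rcases hss with h1 | h1
    · rw [h1, mul_one, one_mul]
    · rw [h1, cen]
  have hconj3 : ∀ g ∈ Subgroup.zpowers a, s⁻¹ * g * s ∈ Subgroup.zpowers a := by
    intro g hg
    have h1 : s⁻¹ * g * s = s * g * s⁻¹ := by
      have h2 := hscen g
      have h3 : s⁻¹ * g * s = s⁻¹ * (g * (s * s)) * s⁻¹ := by group
      rw [h3, h2]
      group
    rw [h1]
    exact hconj2 g hg
  refine ⟨pos, ord, hz, cen, ?_, ?_⟩
  · intro x g hg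
    rcases h x with hx | hx
    · exact Subgroup.mul_mem _ (Subgroup.mul_mem _ (Subgroup.inv_mem _ hx) hg) hx
    · have h1 : x⁻¹ * g * x = (s⁻¹ * x)⁻¹ * (s⁻¹ * g * s) * (s⁻¹ * x) := by group
      rw [h1]
      exact Subgroup.mul_mem _ (Subgroup.mul_mem _ (Subgroup.inv_mem _ hx) (hconj3 g hg)) hx
  · intro g hg
    have hgs := (h g).resolve_left hg
    obtain ⟨m, hm⟩ := hM
    have hm2 : M / 2 = m := by omega
    refine ⟨a ^ m, ?_⟩
    have hb : a ^ m * a ^ m = z := by rw [← pow_add, ← hm, hz]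
    have hsb : s * a ^ m * s⁻¹ = (a ^ m)⁻¹ := by
      rw [← conj_pow]
      rcases hc with h1 | ⟨h0, h1⟩
      · rw [h1, inv_pow]
      · rw [hm2] at h0
        obtain ⟨j, rfl⟩ := h0
        have h2 : Commute a⁻¹ z := cen a⁻¹
        have h3 : z ^ (j + j) = 1 := by rw [← two_mul, pow_mul, pow_two, hzz, one_pow]
        rw [h1, h2.mul_pow, h3, mul_one, inv_pow]
    have hcomm : Commute (s⁻¹ * g) (a ^ m) := by
      obtain ⟨i, hi⟩ := Subgroup.mem_zpowers_iff.1 hgs
      rw [← hi]
      exact ((Commute.refl a).zpow_left i).pow_right m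
    have h4 : a ^ m * s = s * (a ^ m)⁻¹ := by
      have h5 : s * a ^ m = (a ^ m)⁻¹ * s := by
        rw [← hsb]
        group
      have h6 : a ^ m * (s * a ^ m) = s := by rw [h5, mul_inv_cancel_left]
      calc a ^ m * s = a ^ m * (s * a ^ m) * (a ^ m)⁻¹ := by group
        _ = s * (a ^ m)⁻¹ := by rw [h6]
    have h7 : g = s * (s⁻¹ * g) := by group
    calc a ^ m * g * (a ^ m)⁻¹ = (a ^ m * s) * (s⁻¹ * g) * (a ^ m)⁻¹ := by group
      _ = s * (a ^ m)⁻¹ * (s⁻¹ * g) * (a ^ m)⁻¹ := by rw [h4]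
      _ = s * ((a ^ m)⁻¹ * (s⁻¹ * g)) * (a ^ m)⁻¹ := by rw [mul_assoc s]
      _ = s * ((s⁻¹ * g) * (a ^ m)⁻¹) * (a ^ m)⁻¹ := by rw [hcomm.inv_right.eq]
      _ = g * (a ^ m * a ^ m)⁻¹ := by group
      _ = g * z := by rw [hb, ← eq_inv_of_mul_eq_one_left hzz]

end thin

/-! ### The eigenspace -/

section lin

variable {k V : Type} [Field k] [CharZero k] [AddCommGroup V] [Module k V]
  [FiniteDimensional k V]

/-- the projection to the fixed vectors of `U` -/
noncomputable def avg (U : Module.End k V) (n : ℕ) : Module.End k V :=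
  (n : k)⁻¹ • ∑ j ∈ Finset.range n, U ^ j

omit [CharZero k] [FiniteDimensional k V] in
theorem avg_mul (U : Module.End k V) (n : ℕ) (hU : U ^ n = 1) : avg U n * U = avg U n := by
  have h1 := geom_sum_mul U n
  rw [hU, sub_self, mul_sub, mul_one, sub_eq_zero] at h1
  unfold avg
  rw [smul_mul_assoc, h1]

omit [FiniteDimensional k V] in
theorem avg_idem (U : Module.End k V) (n : ℕ) (hn : 0 < n) (hU : U ^ n = 1) :
    IsIdempotentElem (avg U n) := by
  have h1 : ∀ j, avg U n * U ^ j = avg U n := by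
    intro j
    induction j with
    | zero => rw [pow_zero, mul_one]
    | succ j ih => rw [pow_succ, ← mul_assoc, ih, avg_mul U n hU]
  have hn0 : (n : k) ≠ 0 := by exact_mod_cast hn.ne'
  unfold IsIdempotentElem
  conv_lhs =>
    rw [show avg U n * avg U n = avg U n * ((n : k)⁻¹ • ∑ j ∈ Finset.range n, U ^ j) from rfl]
  rw [mul_smul_comm, Finset.mul_sum, Finset.sum_congr rfl (fun j _ => h1 j), Finset.sum_const,
    Finset.card_range, ← Nat.cast_smul_eq_nsmul k, smul_smul, inv_mul_cancel₀ hn0, one_smul]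

theorem rank_eq {S : Type} [Group S] [Finite S] {z a : S} {M : ℕ} (T : TD S z a M)
    (r : S →* (V →ₗ[k] V)) (ζ : k) (hζ : IsPrimitiveRoot ζ (2 * M))
    (hz : LinearMap.trace k V (r z) = -(Module.finrank k V : k))
    (h0 : ∀ g, g ≠ 1 → g ≠ z → LinearMap.trace k V (r g) = 0) :
    M * Module.finrank k (LinearMap.range (avg (ζ⁻¹ • r a) (2 * M))) = Module.finrank k V := by
  have hM := T.pos
  have hUj : ∀ j, (ζ⁻¹ • r a : Module.End k V) ^ j = ζ⁻¹ ^ j • r (a ^ j) := by
    intro j
    rw [smul_pow, map_pow]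
  have hU : (ζ⁻¹ • r a : Module.End k V) ^ (2 * M) = 1 := by
    rw [hUj, ← T.ord, pow_orderOf_eq_one, map_one, T.ord, inv_pow, hζ.pow_eq_one, inv_one, one_smul]
  have hid := avg_idem (ζ⁻¹ • r a : Module.End k V) (2 * M) (by omega) hU
  have h1 := (LinearMap.IsIdempotentElem.isProj_range _ hid).trace
  have h2 : LinearMap.trace k V (avg (ζ⁻¹ • r a) (2 * M)) =
      ((2 * M : ℕ) : k)⁻¹ * (2 * (Module.finrank k V : k)) := by
    unfold avg
    rw [map_smul, map_sum, smul_eq_mul]
    congr 1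
    rw [Finset.sum_eq_add (0 : ℕ) M hM.ne]
    · rw [hUj, hUj, pow_zero, pow_zero, map_one, map_smul, map_smul, ← T.hz, hz]
      have h3 : ζ ^ M = -1 := by
        have h4 : ζ ^ M * ζ ^ M = 1 := by rw [← pow_add, ← two_mul, hζ.pow_eq_one]
        rcases mul_self_eq_one_iff.1 h4 with h5 | h5
        · exact absurd h5 (hζ.pow_ne_one_of_pos_of_lt hM.ne' (by omega))
        · exact h5
      rw [inv_pow, h3, LinearMap.trace_one]
      simp only [smul_eq_mul, one_mul, inv_neg, inv_one]
      ring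
    · intro j hj hj'
      rw [hUj, map_smul, h0, smul_zero]
      · intro h4
        have h5 := orderOf_dvd_of_pow_eq_one h4
        rw [T.ord] at h5
        exact hj'.1 (Nat.eq_zero_of_dvd_of_lt h5 (Finset.mem_range.1 hj))
      · intro h4
        rw [T.hz] at h4
        apply hj'.2
        apply pow_injOn_Iio_orderOf (x := a) _ _ h4
        · rw [Set.mem_Iio, T.ord]
          exact Finset.mem_range.1 hj
        · rw [Set.mem_Iio, T.ord]
          omega
    · intro h
      exact absurd (Finset.mem_range.2 (by omega)) h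
    · intro h
      exact absurd (Finset.mem_range.2 (by omega)) h
  rw [h2] at h1
  have hM0 : (M : k) ≠ 0 := by exact_mod_cast hM.ne'
  have h3 : (M : k) * (Module.finrank k (LinearMap.range (avg (ζ⁻¹ • r a) (2 * M))) : k) =
      (Module.finrank k V : k) := by
    rw [← h1]
    push_cast
    field_simp
  exact_mod_cast h3

theorem even_rank {S : Type} [Group S] {z a s : S} {M : ℕ}
    (hM : 0 < M) (ha : a ^ (2 * M) = 1)
    (r : S →* (V →ₗ[k] V)) (ζ : k) (hζ : IsPrimitiveRoot ζ (2 * M)) (hz : r z = -1)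
    (B : V →ₗ[k] V →ₗ[k] k) (hB : Symm B) (hinv : ∀ g x y, B (r g x) (r g y) = B x y)
    (hss : s * s = z) (hc : s * a * s⁻¹ = a⁻¹) :
    Even (Module.finrank k (LinearMap.range (avg (ζ⁻¹ • r a) (2 * M)))) := by
  have hUj : ∀ j, (ζ⁻¹ • r a : Module.End k V) ^ j = ζ⁻¹ ^ j • r (a ^ j) := by
    intro j
    rw [smul_pow, map_pow]
  have hU : (ζ⁻¹ • r a : Module.End k V) ^ (2 * M) = 1 := by
    rw [hUj, ha, map_one, inv_pow, hζ.pow_eq_one, inv_one, one_smul]
  have hid := avg_idem (ζ⁻¹ • r a : Module.End k V) (2 * M) (by omega) hU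
  set e := avg (ζ⁻¹ • r a : Module.End k V) (2 * M) with he
  have hmul : ∀ g h x, r (g * h) x = r g (r h x) := by
    intro g h x
    rw [map_mul]
    rfl
  have hself : ∀ x y, B (e x) (r s y) = B x (r s (e y)) := by
    have h1 : ∀ x y, B (r a x) (r s y) = B x (r s (r a y)) := by
      intro x y
      have h2 : s = a * (s * a) := by
        have h3 : s * a = a⁻¹ * s := by
          rw [← hc]
          group
        rw [h3, mul_inv_cancel_left]
      conv_lhs => rw [h2]
      rw [hmul a, hinv, hmul]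
    have h2 : ∀ x y, B ((ζ⁻¹ • r a : Module.End k V) x) (r s y) =
        B x (r s ((ζ⁻¹ • r a : Module.End k V) y)) := by
      intro x y
      simp only [LinearMap.smul_apply, map_smul, smul_eq_mul, h1]
    have h3 : ∀ (j : ℕ) x y, B (((ζ⁻¹ • r a : Module.End k V) ^ j) x) (r s y) =
        B x (r s (((ζ⁻¹ • r a : Module.End k V) ^ j) y)) := by
      intro j
      induction j with
      | zero => intro x y; rfl
      | succ j ih =>
        intro x y
        have h4 : ∀ x, ((ζ⁻¹ • r a : Module.End k V) ^ (j + 1)) x =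
          ((ζ⁻¹ • r a : Module.End k V) ^ j) ((ζ⁻¹ • r a : Module.End k V) x) := by
          intro x
          rw [pow_succ]
          rfl
        have h5 : ∀ x, ((ζ⁻¹ • r a : Module.End k V) ^ (j + 1)) x =
          (ζ⁻¹ • r a : Module.End k V) (((ζ⁻¹ • r a : Module.End k V) ^ j) x) := by
          intro x
          rw [pow_succ']
          rfl
        rw [h4 x, ih, h5 y, h2]
    intro x y
    rw [he]
    unfold avg
    simp only [LinearMap.smul_apply, map_smul, smul_eq_mul, LinearMap.sum_apply, map_sum, h3]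
  have hs2 : ∀ x, r s (r s x) = -x := by
    intro x
    rw [← hmul, hss, hz]
    rfl
  have halt : ∀ x y, B y (r s x) = -B x (r s y) := by
    intro x y
    rw [← hinv s, hs2, map_neg, hB.symm]
  set b : V →ₗ[k] V →ₗ[k] k := B.compl₂ (r s) with hb
  have hb1 : ∀ x y, b x y = B x (r s y) := by
    intro x y
    rw [hb, LinearMap.compl₂_apply]
  set W := LinearMap.range e with hW
  have heW : ∀ x ∈ W, e x = x := by
    rintro x ⟨y, rfl⟩
    exact congrArg (fun f : V →ₗ[k] V => f y) hid
  have h1 := CP18.even_rank_asymmetry (V := W) (two_ne_zero : (2 : k) ≠ 0)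
    (b.domRestrict₁₂ W W) (by
      intro y hy
      have h2 : r s (y : V) = 0 := by
        apply hB.nondeg
        intro x
        have h3 := hy ⟨e x, ⟨x, rfl⟩⟩
        rw [LinearMap.domRestrict₁₂_apply, hb1, hself, heW _ y.2] at h3
        exact h3
      have h3 := hs2 (y : V)
      rw [h2, map_zero] at h3
      exact Subtype.ext (neg_eq_zero.1 h3.symm)) (-1) (by
      intro x y
      rw [LinearMap.domRestrict₁₂_apply, LinearMap.domRestrict₁₂_apply, hb1, hb1, halt]
      simp)
  have h2 : LinearMap.range ((-1 : W →ₗ[k] W) - 1) = ⊤ := by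
    rw [LinearMap.range_eq_top]
    intro w
    refine ⟨-((2 : k)⁻¹ • w), ?_⟩
    rw [LinearMap.sub_apply, LinearMap.neg_apply, Module.End.one_apply, neg_neg, sub_neg_eq_add,
      ← add_smul, ← two_mul, mul_inv_cancel₀ (two_ne_zero : (2 : k) ≠ 0), one_smul]
  rw [h2, finrank_top] at h1
  exact h1

end lin

/-- RS2: representations of thin groups on which `z` acts by `-1`. -/
theorem st_RS2 (hPC : PQ.ST_PC) : PQ.ST_RS2 := by
  intro S _ _ hS z hthin k V _ _ _ _ _ _ B hB r hinv hz hrat
  obtain ⟨hP1, hP2, hP3, -, -⟩ := hPC S k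
  obtain ⟨a, M, pos, ord, hza, cen, hcase⟩ := hthin
  have hneg : ∀ g, LinearMap.trace k V (r (g * z)) = -LinearMap.trace k V (r g) := by
    intro g
    rw [map_mul, hz, mul_neg, mul_one, map_neg]
  -- the conclusion from the structure of the group
  have main : ∀ (T : TD S z a M) (H : Subgroup S),
      (∀ h ∈ H, h ∈ Subgroup.zpowers a → h = 1) → ∀ d : ℕ,
      (d * Nat.card S = 2 * Module.finrank k V * Nat.card H) →
      PermCh (fun g => LinearMap.trace k V (r g)) := by
    intro T H hH d hd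
    have h0 : ∀ g, g ≠ 1 → g ≠ z → LinearMap.trace k V (r g) = 0 := by
      intro g hg1 hgz
      have h1 : LinearMap.trace k V (r (g * z)) = LinearMap.trace k V (r g) := by
        by_cases hga : g ∈ Subgroup.zpowers a
        · obtain ⟨u, hu, hgu⟩ := T.odd_pow hS hga hg1 hgz
          rw [← hgu, hrat g u hu]
        · obtain ⟨b, hb⟩ := T.con g hga
          have h2 : r (b * g * b⁻¹) = r (b * g) * r b⁻¹ := map_mul r _ _
          have h3 : r b⁻¹ * r (b * g) = r g := by
            rw [← map_mul, inv_mul_cancel_left]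
          rw [← hb, h2, LinearMap.trace_mul_comm, h3]
      rw [hneg] at h1
      exact self_eq_neg.1 h1.symm
    have h1 : LinearMap.trace k V (r 1) = (Module.finrank k V : k) := by
      rw [map_one, LinearMap.trace_one]
    have hz1 : LinearMap.trace k V (r z) = -(Module.finrank k V : k) := by
      rw [← h1, ← hneg, one_mul]
    have h2 := T.diff H hH (fun g => LinearMap.trace k V (r g)) (Module.finrank k V : k) h1 hz1 h0
      (d : ℤ) (by exact_mod_cast congrArg (Nat.cast : ℕ → k) hd)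
    have h3 := hP2 _ _ (hP3 _ (d : ℤ) (hP1 H)) (hP3 _ (-(d : ℤ)) (hP1 (ext2 H z T.zz T.cen)))
    have h4 : (fun g => LinearMap.trace k V (r g)) =
        fun g => ((d : ℤ) : k) * (fxn H g : k) +
          ((-(d : ℤ) : ℤ) : k) * (fxn (ext2 H z T.zz T.cen) g : k) := by
      funext g
      rw [h2 g]
      push_cast
      ring
    rw [h4]
    exact h3
  have hz1 : LinearMap.trace k V (r z) = -(Module.finrank k V : k) := by
    rw [← LinearMap.trace_one k V, ← map_one r, ← hneg, one_mul]
  -- vanishing, again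
  have h0 : ∀ (_ : TD S z a M) g, g ≠ 1 → g ≠ z → LinearMap.trace k V (r g) = 0 := by
    intro T g hg1 hgz
    have h1 : LinearMap.trace k V (r (g * z)) = LinearMap.trace k V (r g) := by
      by_cases hga : g ∈ Subgroup.zpowers a
      · obtain ⟨u, hu, hgu⟩ := T.odd_pow hS hga hg1 hgz
        rw [← hgu, hrat g u hu]
      · obtain ⟨b, hb⟩ := T.con g hga
        have h2 : r (b * g * b⁻¹) = r (b * g) * r b⁻¹ := map_mul r _ _
        have h3 : r b⁻¹ * r (b * g) = r g := by
          rw [← map_mul, inv_mul_cancel_left]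
        rw [← hb, h2, LinearMap.trace_mul_comm, h3]
    rw [hneg] at h1
    exact self_eq_neg.1 h1.symm
  have : NeZero ((2 * M : ℕ) : k) := ⟨by
    rw [Nat.cast_ne_zero]
    omega⟩
  obtain ⟨ζ, hζ⟩ := HasEnoughRootsOfUnity.exists_primitiveRoot k (2 * M)
  rcases hcase with hcyc | ⟨s, hM, hs, hcov, ⟨hss, hc⟩ | ⟨hss, hc⟩⟩
  · have T := td_cyc pos ord hza cen hcyc
    have hr := rank_eq T r ζ hζ hz1 (h0 T)
    apply main T ⊥ (fun h hh _ => (Subgroup.mem_bot).1 hh)
      (Module.finrank k (LinearMap.range (avg (ζ⁻¹ • r a) (2 * M))))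
    rw [card_cyc ord hcyc, Subgroup.card_bot, ← hr]
    ring
  · have T := td_two pos ord hza cen hM hcov (Or.inl hss) hc
    have hr := rank_eq T r ζ hζ hz1 (h0 T)
    have hs1 : s ≠ 1 := fun h => hs (h ▸ Subgroup.one_mem _)
    have hos : orderOf s = 2 := by
      apply orderOf_eq_prime
      · rw [pow_two, hss]
      · exact hs1
    apply main T (Subgroup.zpowers s) (by
      intro h hh hha
      obtain ⟨i, rfl⟩ := Subgroup.mem_zpowers_iff.1 hh
      rcases Int.even_or_odd' i with ⟨j, rfl | rfl⟩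
      · rw [zpow_mul, zpow_two, hss, one_zpow]
      · exfalso
        rw [zpow_add, zpow_mul, zpow_two, hss, one_zpow, one_mul, zpow_one] at hha
        exact hs hha)
      (Module.finrank k (LinearMap.range (avg (ζ⁻¹ • r a) (2 * M))))
    rw [card_two ord hs hcov, Nat.card_zpowers, hos, ← hr]
    ring
  · have T := td_two pos ord hza cen hM hcov (Or.inr hss) (Or.inl hc)
    have hr := rank_eq T r ζ hζ hz1 (h0 T)
    obtain ⟨d, hd⟩ := even_rank pos (by rw [← ord, pow_orderOf_eq_one]) r ζ hζ hz B hB hinv hss hc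
    apply main T ⊥ (fun h hh _ => (Subgroup.mem_bot).1 hh) d
    rw [card_two ord hs hcov, Subgroup.card_bot, ← hr, hd]
    ring

end PQ55

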