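import Pool.Agent.Helper94.PQ.StmtsT
import Pool.Agent.Helper55.PQ.RS2
import Pool.Agent.Helper22.PQ.DET

set_option autoImplicit false

open scoped Classical

namespace PQ55

open PQ Pool.Agent.Helper13.Swan

/-! ### Linear algebra -/

section lin

variable {k V : Type} [Field k] [CharZero k] [AddCommGroup V] [Module k V]
  [FiniteDimensional k V]

omit [AddCommGroup V] [Module k V] [FiniteDimensional k V] in
theorem neg_one_ne : (-1 : k) ≠ 1 := by
  intro h
  have h1 : (2 : k) = 0 := by linear_combination -h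
  exact two_ne_zero h1

omit [CharZero k] in
theorem det_neg_one : LinearMap.det (-1 : V →ₗ[k] V) = (-1 : k) ^ Module.finrank k V := by
  have h4 := LinearMap.det_smul (-1 : k) (1 : V →ₗ[k] V)
  rw [map_one, mul_one, neg_one_smul] at h4
  exact h4

theorem even_of_sq (B : V →ₗ[k] V →ₗ[k] k) (hB : Symm B) (J : V →ₗ[k] V)
    (hJ : ∀ x y, B (J x) (J y) = B x y) (h : J * J = -1) : Even (Module.finrank k V) := by
  have h1 := CP18.det_isometry B hB.nondeg hB.symm J hJ
  have h2 : LinearMap.det (J * J) = 1 := by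
    rw [map_mul, h1, ← mul_pow, neg_mul_neg, one_mul, one_pow]
  rw [h, det_neg_one] at h2
  rcases Nat.even_or_odd (Module.finrank k V) with h4 | h4
  · exact h4
  · rw [h4.neg_one_pow] at h2
    exact absurd h2 neg_one_ne

theorem det_of_pow (B : V →ₗ[k] V →ₗ[k] k) (hB : Symm B) (T : V →ₗ[k] V)
    (hT : ∀ x y, B (T x) (T y) = B x y) (m : ℕ) (hm : T ^ m = -1)
    (hn : Even (Module.finrank k V)) : LinearMap.det T = 1 := by
  have h1 := CP18.det_isometry B hB.nondeg hB.symm T hT
  have h2 : LinearMap.range (T - 1) = ⊤ := by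
    rw [LinearMap.range_eq_top, ← LinearMap.injective_iff_surjective, ← LinearMap.ker_eq_bot,
      LinearMap.ker_eq_bot']
    intro x hx
    have h3 : T x = x := sub_eq_zero.1 hx
    have h4 : ∀ j : ℕ, (T ^ j) x = x := by
      intro j
      induction j with
      | zero => rfl
      | succ j ih =>
        rw [pow_succ]
        have h5 : (T ^ j * T) x = (T ^ j) (T x) := rfl
        rw [h5, h3, ih]
    have h5 := h4 m
    rw [hm] at h5
    have h6 : -x = x := h5
    have h7 : (2 : k) • x = 0 := by
      rw [two_smul]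
      nth_rewrite 1 [← h6]
      rw [neg_add_cancel]
    exact (smul_eq_zero.1 h7).resolve_left two_ne_zero
  rw [h2, finrank_top] at h1
  rw [h1, hn.neg_one_pow]

theorem det_of_inv (B : V →ₗ[k] V →ₗ[k] k) (hB : Symm B) (S : V →ₗ[k] V)
    (hS : ∀ x y, B (S x) (S y) = B x y) (h : S * S = 1) (ht : LinearMap.trace k V S = 0) (m : ℕ)
    (hm : Module.finrank k V = 2 * m) : LinearMap.det S = (-1) ^ m := by
  have h1 := CP18.det_isometry B hB.nondeg hB.symm S hS
  have h2 := PQ22.avg_trace S 2 (by norm_num) (by rw [pow_two, h])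
  rw [Finset.sum_range_succ, Finset.sum_range_one, pow_zero, pow_one, LinearMap.trace_one, ht,
    add_zero] at h2
  have h3 : 2 * Module.finrank k (LinearMap.ker (S - 1)) = Module.finrank k V := by
    exact_mod_cast h2
  have h4 := LinearMap.finrank_range_add_finrank_ker (S - 1)
  rw [h1]
  congr 1
  omega

theorem four_dvd {S : Type} [Group S] {z j s : S} (r : S →* (V →ₗ[k] V)) (ζ : k)
    (hζ : IsPrimitiveRoot ζ 4) (hz : r z = -1)
    (B : V →ₗ[k] V →ₗ[k] k) (hB : Symm B) (hinv : ∀ g x y, B (r g x) (r g y) = B x y)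
    (hzz : z * z = 1) (hj : j * j = z) (hss : s * s = z) (hc : s * j * s⁻¹ = j⁻¹) :
    4 ∣ Module.finrank k V := by
  have hj4 : j ^ (2 * 2) = 1 := by
    rw [pow_mul, pow_two j, hj, pow_two, hzz]
  have h0 := even_rank (z := z) (a := j) (s := s) (M := 2) (by norm_num) hj4 r ζ hζ hz B hB hinv
    hss hc
  have hji : j⁻¹ = j * z := by
    rw [← hj, inv_eq_iff_mul_eq_one, ← hzz, ← hj]
    group
  have htr : LinearMap.trace k V (r j) = 0 := by
    have h1 : LinearMap.trace k V (r j⁻¹) = LinearMap.trace k V (r j) := by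
      have h2 : r (s * j * s⁻¹) = r (s * j) * r s⁻¹ := map_mul r _ _
      have h3 : r s⁻¹ * r (s * j) = r j := by
        rw [← map_mul, inv_mul_cancel_left]
      rw [← hc, h2, LinearMap.trace_mul_comm, h3]
    rw [hji, map_mul, hz, mul_neg, mul_one, map_neg] at h1
    exact self_eq_neg.1 h1.symm
  have hζ2 : ζ * ζ = -1 := by
    have h1 : (ζ * ζ) * (ζ * ζ) = 1 := by
      have h2 := hζ.pow_eq_one
      have h3 : (ζ * ζ) * (ζ * ζ) = ζ ^ 4 := by ring
      rw [h3, h2]
    rcases mul_self_eq_one_iff.1 h1 with h2 | h2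
    · exfalso
      have h3 := hζ.pow_ne_one_of_pos_of_lt (l := 2) (by norm_num) (by norm_num)
      rw [pow_two] at h3
      exact h3 h2
    · exact h2
  have hU2 : (ζ⁻¹ • r j : Module.End k V) * (ζ⁻¹ • r j) = 1 := by
    rw [smul_mul_smul_comm, ← map_mul, hj, hz, ← mul_inv, hζ2, inv_neg, inv_one, neg_smul_neg,
      one_smul]
  have hU4 : (ζ⁻¹ • r j : Module.End k V) ^ 4 = 1 := by
    have h1 : (ζ⁻¹ • r j : Module.End k V) ^ 4 =
      ((ζ⁻¹ • r j : Module.End k V) * (ζ⁻¹ • r j)) * ((ζ⁻¹ • r j) * (ζ⁻¹ • r j)) := by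
      noncomm_ring
    rw [h1, hU2, one_mul]
  have hid := avg_idem (ζ⁻¹ • r j : Module.End k V) 4 (by norm_num) hU4
  have h1 := (LinearMap.IsIdempotentElem.isProj_range _ hid).trace
  have h2 : LinearMap.trace k V (avg (ζ⁻¹ • r j) 4) =
      ((4 : ℕ) : k)⁻¹ * (2 * (Module.finrank k V : k)) := by
    unfold avg
    have h3 : (ζ⁻¹ • r j : Module.End k V) ^ 3 = ζ⁻¹ • r j := by
      rw [pow_succ, pow_two, hU2, one_mul]
    rw [map_smul, smul_eq_mul, Finset.sum_range_succ, Finset.sum_range_succ,
      Finset.sum_range_succ, Finset.sum_range_one, pow_zero, pow_one, h3, pow_two, hU2, map_add,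
      map_add, map_add, map_smul, htr, LinearMap.trace_one, smul_zero]
    ring
  rw [h2] at h1
  have h3 : (Module.finrank k V : k) =
      2 * (Module.finrank k (LinearMap.range (avg (ζ⁻¹ • r j) 4)) : k) := by
    rw [← h1]
    push_cast
    field_simp
    ring
  have h4 : Module.finrank k V = 2 * Module.finrank k (LinearMap.range (avg (ζ⁻¹ • r j) 4)) := by
    exact_mod_cast h3
  obtain ⟨d, hd⟩ := h0
  rw [h4]
  have h5 : Module.finrank k (LinearMap.range (avg (ζ⁻¹ • r j) 4)) = d + d := hd
  rw [h5]
  exact ⟨d, by ring⟩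

end lin

/-! ### Sums over the group -/

section sums

variable {P : Type} [Group P] [Fintype P]

theorem sum_ite_mem (A : Subgroup P) [Fintype A] (f : P → ℤ) :
    (∑ g : P, if g ∈ A then f g else 0) = ∑ h : A, f h := by
  rw [← Finset.sum_filter]
  exact Finset.sum_subtype _ (by intro x; simp) f

theorem sum_split (A : Subgroup P) [Fintype A] (s : P) (hs : s ∉ A)
    (hcov : ∀ g, g ∈ A ∨ s⁻¹ * g ∈ A) (f : P → ℤ) :
    ∑ g : P, f g = (∑ g : P, if g ∈ A then f g else 0) + ∑ h : A, f (s * h) := by
  rw [← sum_ite_mem A (fun g => f (s * g))]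
  have h1 : (∑ g : P, if g ∈ A then f (s * g) else 0) =
      ∑ g : P, if s⁻¹ * g ∈ A then f g else 0 := by
    apply Fintype.sum_equiv (Equiv.mulLeft s)
    intro g
    rw [Equiv.coe_mulLeft, inv_mul_cancel_left]
  rw [h1, ← Finset.sum_add_distrib]
  apply Finset.sum_congr rfl
  intro g _
  by_cases hg : g ∈ A
  · have h2 : s⁻¹ * g ∉ A := by
      intro h3
      apply hs
      have := A.mul_mem hg (A.inv_mem h3)
      rwa [mul_inv_rev, inv_inv, mul_inv_cancel_left] at this
    rw [if_pos hg, if_neg h2, add_zero]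
  · have h2 := (hcov g).resolve_left hg
    rw [if_neg hg, if_pos h2, zero_add]

end sums

section val

variable {Ω P : Type} [Field Ω] [Group P] [MulSemiringAction P Ω] [Fintype P] [FaithfulSMul P Ω]

/-- the theorem of Hasse and Arf for a cyclic subgroup -/
theorem hac_sub (hH : ST_HAC) (w : Valuation Ω (WithZero (Multiplicative ℤ))) (π : Ω)
    (hB : Base P w π) (a : P) (k : ℕ) (ha : orderOf a = 2 ^ (k + 1)) :
    ((2 : ℤ) ^ (k + 1)) ∣ (∑ g : P, if g ∈ Subgroup.zpowers a then dI w π g else 0) +
      dI w π (a ^ 2 ^ k) := by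
  have hB' : Base (Subgroup.zpowers a) w π :=
    ⟨fun τ x => hB.inv τ x, hB.unif, fun x hx => by
      obtain ⟨y, h1, h2⟩ := hB.res x hx
      exact ⟨y, fun τ => h1 τ, h2⟩⟩
  have hF : FaithfulSMul (Subgroup.zpowers a) Ω := ⟨by
    intro g h hgh
    apply Subtype.ext
    exact eq_of_smul_eq_smul (α := Ω) fun x => hgh x⟩
  have h1 := hH Ω (Subgroup.zpowers a) w π hB' ⟨a, Subgroup.mem_zpowers a⟩ k
    (by rw [Subgroup.orderOf_mk]; exact ha) (by
      rintro ⟨g, hg⟩
      obtain ⟨i, hi⟩ := Subgroup.mem_zpowers_iff.1 hg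
      rw [Subgroup.mem_zpowers_iff]
      exact ⟨i, Subtype.ext hi⟩)
  rw [sum_ite_mem]
  exact h1

omit [FaithfulSMul P Ω] in
/-- the conclusion from the properties of the element `D` -/
theorem good_of {z a : P} {M : ℕ} (T : TD P z a M) (hP : IsPGroup 2 P)
    (w : Valuation Ω (WithZero (Multiplicative ℤ))) (π : Ω)
    (d1 : dI w π (1 : P) = 0) (dc : ∀ g h : P, dI w π (h * g * h⁻¹) = dI w π g)
    (du : ∀ (g : P) (u : ℕ), u.Coprime (orderOf g) → dI w π (g ^ u) = dI w π g)
    {k V : Type} [Field k] [CharZero k] [AddCommGroup V] [Module k V] [FiniteDimensional k V]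
    (r : P →* (V →ₗ[k] V)) (hz : r z = -1) (D : Ω) (hD : D ≠ 0)
    (hdet : ∀ g : P, (LinearMap.det (r g) = 1 ∧ g • D = D) ∨
      (LinearMap.det (r g) = -1 ∧ g • D = -D)) (j : ℤ)
    (hw : w D ^ 2 = ex ((Module.finrank k V : ℤ) * ((∑ g : P, dI w π g) + dI w π z) +
      2 * (Nat.card P : ℤ) * j)) : Good w π r := by
  have hneg : ∀ g, LinearMap.trace k V (r (g * z)) = -LinearMap.trace k V (r g) := by
    intro g
    rw [map_mul, hz, mul_neg, mul_one, map_neg]
  have hz1 : LinearMap.trace k V (r z) = -(Module.finrank k V : k) := by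
    rw [← LinearMap.trace_one k V, ← map_one r, ← hneg, one_mul]
  have hdz : ∀ g : P, g ≠ 1 → g ≠ z → dI w π (g * z) = dI w π g := by
    intro g hg1 hgz
    by_cases hga : g ∈ Subgroup.zpowers a
    · obtain ⟨u, hu, hgu⟩ := T.odd_pow hP hga hg1 hgz
      rw [← hgu]
      apply du
      obtain ⟨t, ht⟩ := IsPGroup.iff_orderOf.1 hP g
      rw [ht]
      exact (Nat.coprime_two_right.2 hu).pow_right t
    · obtain ⟨b, hb⟩ := T.con g hga
      rw [← hb, dc]
  have hzz := T.zz
  have hzne := T.z_ne
  have hF : ∑ g : P, (if g = 1 ∨ g = z then (0 : k) else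
      LinearMap.trace k V (r g) * (dI w π g : k)) = 0 := by
    have h1 : ∑ g : P, (if g = 1 ∨ g = z then (0 : k) else
        LinearMap.trace k V (r g) * (dI w π g : k)) = -∑ g : P, (if g = 1 ∨ g = z then (0 : k) else
        LinearMap.trace k V (r g) * (dI w π g : k)) := by
      rw [← Finset.sum_neg_distrib]
      apply Fintype.sum_equiv (Equiv.mulRight z)
      intro g
      simp only [Equiv.coe_mulRight]
      by_cases hg1 : g = 1
      · rw [hg1, one_mul, if_pos (Or.inl rfl), if_pos (Or.inr rfl), neg_zero]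
      · by_cases hgz : g = z
        · rw [hgz, hzz, if_pos (Or.inr rfl), if_pos (Or.inl rfl), neg_zero]
        · have h2 : ¬ (g * z = 1 ∨ g * z = z) := by
            rintro (h3 | h3)
            · apply hgz
              rw [eq_inv_of_mul_eq_one_left h3, ← eq_inv_of_mul_eq_one_left hzz]
            · exact hg1 (mul_eq_right.1 h3)
          rw [if_neg (by rintro (h3 | h3); exacts [hg1 h3, hgz h3]), if_neg h2, hneg,
            hdz g hg1 hgz]
          ring
    exact self_eq_neg.1 h1
  have hS : ∑ g : P, LinearMap.trace k V (r g) * (dI w π g : k) =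
      -(Module.finrank k V : k) * (dI w π z : k) := by
    have h1 : ∀ g : P, LinearMap.trace k V (r g) * (dI w π g : k) =
        (if g = 1 ∨ g = z then (0 : k) else LinearMap.trace k V (r g) * (dI w π g : k)) +
          (if g = z then -(Module.finrank k V : k) * (dI w π z : k) else 0) := by
      intro g
      by_cases hg1 : g = 1
      · rw [hg1, if_pos (Or.inl rfl), if_neg (Ne.symm hzne), d1, Int.cast_zero, mul_zero, add_zero]
      · by_cases hgz : g = z
        · rw [hgz, if_pos (Or.inr rfl), if_pos rfl, hz1, zero_add]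
        · rw [if_neg (by rintro (h3 | h3); exacts [hg1 h3, hgz h3]), if_neg hgz, add_zero]
    rw [Finset.sum_congr rfl (fun g _ => h1 g), Finset.sum_add_distrib, hF, zero_add,
      Finset.sum_ite_eq' Finset.univ z, if_pos (Finset.mem_univ z)]
  refine ⟨D, (Module.finrank k V : ℤ) * ((∑ g : P, dI w π g) + dI w π z), j, hD, hdet, ?_, hw⟩
  push_cast
  have h2 : ∀ g : P, ((Module.finrank k V : k) - LinearMap.trace k V (r g)) * (dI w π g : k) =
      (Module.finrank k V : k) * (dI w π g : k) - LinearMap.trace k V (r g) * (dI w π g : k) := by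
    intro g
    ring
  rw [Finset.sum_congr rfl (fun g _ => h2 g), Finset.sum_sub_distrib, hS, ← Finset.mul_sum]
  ring

end val

/-- GTHN: cyclic, dihedral, semidihedral and quaternion groups. -/
theorem st_GTHN (hD : PQ.ST_DSP) (hH : PQ.ST_HAC) (hI : PQ.ST_DIH) : PQ.ST_GTHN := by
  intro Ω P _ _ _ _ _ _ w π hBase hP z hthin k V _ _ _ _ _ _ B hB r hinv hz
  obtain ⟨d1, dv, -, dc, du, dn⟩ := hD Ω P w π hBase
  obtain ⟨a, M, pos, ord, hza, cen, hcase⟩ := hthin
  have hn : ∀ g : P, g * g = z → Even (Module.finrank k V) := by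
    intro g hg
    exact even_of_sq B hB (r g) (hinv g) (by rw [← map_mul, hg, hz])
  obtain ⟨t, ht⟩ := IsPGroup.iff_orderOf.1 hP a
  have ht0 : t ≠ 0 := by
    rintro rfl
    rw [pow_zero] at ht
    omega
  obtain ⟨t, rfl⟩ := Nat.exists_eq_succ_of_ne_zero ht0
  have hMt : M = 2 ^ t := by
    rw [Nat.succ_eq_add_one, pow_succ] at ht
    omega
  have hhac := hac_sub hH w π hBase a t (by rw [ht])
  rw [← hMt, ← hza] at hhac
  -- the determinant on the powers of `a`
  have hdeta : Even M → ∀ g ∈ Subgroup.zpowers a, LinearMap.det (r g) = 1 := by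
    intro hM g hg
    obtain ⟨m, hm⟩ := hM
    have h1 : Even (Module.finrank k V) := hn (a ^ m) (by rw [← pow_add, ← hm, hza])
    have h2 : LinearMap.det (r a) = 1 :=
      det_of_pow B hB (r a) (hinv a) M (by rw [← map_pow, ← hza, hz]) h1
    obtain ⟨i, rfl⟩ := (mem_powers_iff_mem_zpowers).2 hg
    simp only
    rw [map_pow, map_pow, h2, one_pow]
  rcases hcase with hcyc | ⟨s, hM, hs, hcov, hrel⟩
  · have T := td_cyc pos ord hza cen hcyc
    have hcard := card_cyc ord hcyc
    rcases Nat.even_or_odd M with hM | hM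
    · -- cyclic of order at least four
      obtain ⟨m, hm⟩ := id hM
      obtain ⟨c, hc⟩ : Even (Module.finrank k V) := hn (a ^ m) (by rw [← pow_add, ← hm, hza])
      have h1 : (∑ g : P, if g ∈ Subgroup.zpowers a then dI w π g else 0) = ∑ g : P, dI w π g :=
        Finset.sum_congr rfl fun g _ => if_pos (hcyc g)
      rw [h1] at hhac
      obtain ⟨u, hu⟩ := hhac
      apply good_of T hP w π d1 dc du r hz 1 one_ne_zero
        (fun g => Or.inl ⟨hdeta hM g (hcyc g), smul_one g⟩) (-((c : ℤ) * u))
      rw [map_one, one_pow, hu, hc, hcard, ← ex_zero, ex_inj, hMt]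
      push_cast
      ring
    · -- order two
      have hM1 : M = 1 := by
        rcases Nat.eq_zero_or_pos t with h | h
        · rw [hMt, h, pow_zero]
        · exfalso
          rw [hMt] at hM
          exact (Nat.not_odd_iff_even.2 ((Nat.even_pow.2 ⟨even_two, h.ne'⟩))) hM
      have hall : ∀ g : P, g = 1 ∨ g = z := by
        intro g
        apply T.inv_eq (hcyc g)
        obtain ⟨i, rfl⟩ := Subgroup.mem_zpowers_iff.1 (hcyc g)
        have h1 : a * a = 1 := by
          have := pow_orderOf_eq_one a
          rw [ord, hM1] at this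
          rw [← pow_two]
          exact this
        rw [← (Commute.refl a).mul_zpow, h1, one_zpow]
      have hsum : ∑ g : P, dI w π g = dI w π z := by
        apply Finset.sum_eq_single z
        · intro g _ hg
          rw [(hall g).resolve_right hg, d1]
        · intro h
          exact absurd (Finset.mem_univ z) h
      have hdz := dv z T.z_ne
      have hne : z • π - π ≠ 0 := by
        intro h
        rw [h, map_zero] at hdz
        exact ex_ne_zero _ hdz.symm
      have hsm : z • (z • π - π) = -(z • π - π) := by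
        rw [smul_sub, smul_smul, T.zz, one_smul]
        ring
      apply good_of T hP w π d1 dc du r hz ((z • π - π) ^ Module.finrank k V) (pow_ne_zero _ hne)
        _ 0
      · rw [hsum, map_pow, hdz, ex_pow, ex_pow, ex_inj]
        push_cast
        ring
      · intro g
        rcases hall g with rfl | rfl
        · left
          rw [map_one, map_one, one_smul]
          exact ⟨rfl, rfl⟩
        · rw [hz, det_neg_one, smul_pow', hsm]
          rcases Nat.even_or_odd (Module.finrank k V) with h | h
          · left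
            rw [h.neg_one_pow, h.neg_pow]
            exact ⟨rfl, rfl⟩
          · right
            rw [h.neg_one_pow, h.neg_pow]
            exact ⟨rfl, rfl⟩
  · have hcard := card_two ord hs hcov
    obtain ⟨m, hm⟩ := id hM
    have hm2 : M / 2 = m := by omega
    have hbb : a ^ m * a ^ m = z := by rw [← pow_add, ← hm, hza]
    obtain ⟨c, hc⟩ : Even (Module.finrank k V) := hn (a ^ m) hbb
    have hzz : z * z = 1 := by
      rw [hza, ← pow_add, ← two_mul, ← ord, pow_orderOf_eq_one]
    have hTD : TD P z a M := by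
      rcases hrel with ⟨h1, h2⟩ | ⟨h1, h2⟩
      · exact td_two pos ord hza cen hM hcov (Or.inl h1) h2
      · exact td_two pos ord hza cen hM hcov (Or.inr h1) (Or.inl h2)
    have hsplit := sum_split (Subgroup.zpowers a) s hs hcov (fun g => dI w π g)
    have hsA : s * s ∈ Subgroup.zpowers a := by
      rcases hrel with ⟨h1, -⟩ | ⟨h1, -⟩
      · rw [h1]
        exact Subgroup.one_mem _
      · rw [h1]
        exact hTD.z_mem
    have hwη := dn (Subgroup.zpowers a) s hs
    set ν := nm (Subgroup.zpowers a) π with hν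
    have hνf : Fx (Subgroup.zpowers a) ν := nm_fixed _ π
    set η := s • ν - ν with hη
    have hη0 : η ≠ 0 := by
      intro h
      rw [h, map_zero] at hwη
      exact ex_ne_zero _ hwη.symm
    have hηA : ∀ g ∈ Subgroup.zpowers a, g • η = η := by
      intro g hg
      rw [hη, smul_sub, hνf g hg]
      have h1 : g • s • ν = s • ν := by
        have h2 : g * s = s * (s⁻¹ * g * s) := by group
        rw [smul_smul, h2, mul_smul, hνf _ (hTD.nrm s g hg)]
      rw [h1]
    have hηs : s • η = -η := by
      rw [hη, smul_sub, smul_smul, hνf _ hsA]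
      ring
    obtain ⟨v, hv⟩ := hBase.val_fixed (Subgroup.zpowers a) (y := η) hηA hη0
    rw [hwη, ex_inj, Nat.card_zpowers, ord] at hv
    -- the determinant outside of the powers of `a`
    have hdets : ∀ g ∉ Subgroup.zpowers a, LinearMap.det (r g) = LinearMap.det (r s) := by
      intro g hg
      have h1 := (hcov g).resolve_left hg
      have h2 : r g = r s * r (s⁻¹ * g) := by
        rw [← map_mul, mul_inv_cancel_left]
      rw [h2, map_mul, hdeta hM _ h1, mul_one]
    -- the case of dimension divisible by four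
    have hfour : 4 ∣ Module.finrank k V → LinearMap.det (r s) = 1 → Good w π r := by
      rintro ⟨e, he⟩ hds
      obtain ⟨u, hu⟩ := hhac
      apply good_of hTD hP w π d1 dc du r hz 1 one_ne_zero _ (-((e : ℤ) * (u + v)))
      · rw [map_one, one_pow, hsplit, hv, he, hcard, ← ex_zero, ex_inj]
        have h3 : (∑ g : P, if g ∈ Subgroup.zpowers a then dI w π g else 0) +
            ((2 * M : ℕ) : ℤ) * v + dI w π z = 2 ^ (t + 1) * u + ((2 * M : ℕ) : ℤ) * v := by
          rw [← hu]
          ring
        rw [h3, hMt]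
        push_cast
        ring
      · intro g
        left
        refine ⟨?_, smul_one g⟩
        by_cases hg : g ∈ Subgroup.zpowers a
        · exact hdeta hM g hg
        · rw [hdets g hg, hds]
    have hne0 : NeZero ((4 : ℕ) : k) := ⟨by
      rw [Nat.cast_ne_zero]
      norm_num⟩
    obtain ⟨ζ, hζ⟩ := HasEnoughRootsOfUnity.exists_primitiveRoot k 4
    have hinvsq : ∀ g : P, g * g = z → LinearMap.det (r g) = 1 := by
      intro g hg
      exact det_of_pow B hB (r g) (hinv g) 2 (by rw [← map_pow, pow_two, hg, hz]) ⟨c, hc⟩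
    rcases hrel with ⟨hss, hdi | ⟨hme, hsd⟩⟩ | ⟨hss, hq⟩
    · -- dihedral
      have ht1 : t ≠ 0 := by
        rintro rfl
        rw [pow_zero] at hMt
        omega
      obtain ⟨t, rfl⟩ := Nat.exists_eq_succ_of_ne_zero ht1
      obtain ⟨u, hu⟩ := hI Ω P w π hBase a s t ht hs hcov hss hdi
      rw [show t + 1 = t.succ from rfl, ← hMt, ← hza] at hu
      have htr : LinearMap.trace k V (r s) = 0 := by
        obtain ⟨b, hb⟩ := hTD.con s hs
        have h2 : r (b * s * b⁻¹) = r (b * s) * r b⁻¹ := map_mul r _ _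
        have h3 : r b⁻¹ * r (b * s) = r s := by
          rw [← map_mul, inv_mul_cancel_left]
        have h4 : LinearMap.trace k V (r (s * z)) = LinearMap.trace k V (r s) := by
          rw [← hb, h2, LinearMap.trace_mul_comm, h3]
        rw [map_mul, hz, mul_neg, mul_one, map_neg] at h4
        exact self_eq_neg.1 h4.symm
      have hds := det_of_inv B hB (r s) (hinv s) (by rw [← map_mul, hss, map_one]) htr c
        (by rw [hc, two_mul])
      apply good_of hTD hP w π d1 dc du r hz (η ^ c) (pow_ne_zero _ hη0) _ (-((c : ℤ) * u))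
      · rw [map_pow, hwη, ex_pow, ex_pow, ex_inj, hsplit, hc, hcard]
        have h3 : (∑ g : P, if g ∈ Subgroup.zpowers a then dI w π g else 0) =
            2 ^ (t + 3) * u - dI w π z := by
          rw [← hu]
          ring
        rw [h3, hMt, Nat.succ_eq_add_one]
        push_cast
        ring
      · intro g
        by_cases hg : g ∈ Subgroup.zpowers a
        · left
          rw [hdeta hM g hg, smul_pow', hηA g hg]
          exact ⟨rfl, rfl⟩
        · have h1 := (hcov g).resolve_left hg
          have h2 : g • η = -η := by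
            have h3 : g = s * (s⁻¹ * g) := by group
            rw [h3, mul_smul, hηA _ h1, hηs]
          rw [hdets g hg, hds, smul_pow', h2]
          rcases Nat.even_or_odd c with h | h
          · left
            rw [h.neg_one_pow, h.neg_pow]
            exact ⟨rfl, rfl⟩
          · right
            rw [h.neg_one_pow, h.neg_pow]
            exact ⟨rfl, rfl⟩
    · -- semidihedral
      rw [hm2] at hme
      obtain ⟨m', hm'⟩ := hme
      have hsa : (s * a) * (s * a) = z := by
        have h1 : (s * a) * (s * a) = (s * a * s⁻¹) * (s * s) * a := by group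
        rw [h1, hss, hsd, mul_one, mul_assoc, ← cen a, inv_mul_cancel_left]
      have hconj : (s * a) * a ^ m * (s * a)⁻¹ = (a ^ m)⁻¹ := by
        have h1 : (s * a) * a ^ m * (s * a)⁻¹ = s * a ^ m * s⁻¹ := by
          have h2 : a * a ^ m * a⁻¹ = a ^ m := by
            rw [← pow_succ', pow_succ, mul_inv_cancel_right]
          calc (s * a) * a ^ m * (s * a)⁻¹ = s * (a * a ^ m * a⁻¹) * s⁻¹ := by group
            _ = s * a ^ m * s⁻¹ := by rw [h2]
        have h2 : Commute a⁻¹ z := cen a⁻¹
        have h3 : z ^ (m' + m') = 1 := by rw [← two_mul, pow_mul, pow_two, hzz, one_pow]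
        rw [h1, ← conj_pow, hsd, h2.mul_pow, hm', h3, mul_one, inv_pow]
      have h4 := four_dvd r ζ hζ hz B hB hinv hzz hbb hsa hconj
      apply hfour h4
      have h5 := hinvsq (s * a) hsa
      rw [map_mul, map_mul, hdeta hM a (Subgroup.mem_zpowers a), mul_one] at h5
      exact h5
    · -- quaternion
      have hconj : s * a ^ m * s⁻¹ = (a ^ m)⁻¹ := by
        rw [← conj_pow, hq, inv_pow]
      exact hfour (four_dvd r ζ hζ hz B hB hinv hzz hbb hss hconj) (hinvsq s hss)

end PQ55
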